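import Pool.Agent.Lib.MP_c014b8_lc.Pp

/-!
The statement of Q1 at a single singular cardinal `L`, compared with `pp(L) = L⁺`.
-/

open Cardinal Order

universe u

namespace Pool.Agent.Results.MP_c014b8_lc.LocalEquivalence

open Pool.Agent.Lib.MP_c014b8_lc

/-- Let `L` be a singular cardinal of countable cofinality. Then the statement of Q1 at `L`, its
restriction to `ℵ₁`-directed sets, the equality `pp(L) = L⁺`, and the existence of scales of
length `L⁺` modulo finite sets for all strictly increasing `ω`-sequences of regular cardinals with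
supremum `L` are all equivalent. Moreover, at every singular cardinal `L`, of any cofinality,
`pp(L) = L⁺` implies the statement of Q1 at `L`. -/
theorem result (L : Cardinal.{u}) (hL : L.IsSingular) :
    (L.ord.cof = ℵ₀ → List.TFAE [Q1At L, DirQ1At L, pp L = succ L, OmegaScalesAt L]) ∧
      (pp L = succ L → Q1At L) := by
  refine ⟨fun hcof => ?_, fun h => q1At_of_scalesAt hL (scalesAt_of_pp hL h)⟩
  have H := local_pp_tfae hL hcof
  tfae_have 1 ↔ 2 := H.out 0 1
  tfae_have 1 ↔ 3 := H.out 0 2
  tfae_have 1 ↔ 4 := H.out 0 3
  tfae_finish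

end Pool.Agent.Results.MP_c014b8_lc.LocalEquivalence
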