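import Pool.Agent.Lib.MP_c014b8_lc.Pp

/-!
The statement of Q1 is equivalent to Shelah's Strong Hypothesis.
-/

open Cardinal Order

universe u

namespace Pool.Agent.Results.MP_c014b8_lc.SSHEquivalence

open Pool.Agent.Lib.MP_c014b8_lc

/-- The following are equivalent:
1. the statement of Q1: for every singular cardinal `L` and every directed set `P`, if `cf(L)` is
   not in `Sp_T(P)` and `Sp_T(P)` is unbounded in `L`, then `L⁺` is in `Sp_T(P)`;
2. for every singular cardinal `L` and every `cf(L)⁺`-directed set `P`, if `Sp_T(P)` is unbounded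
   in `L`, then `L⁺` is in `Sp_T(P)`;
3. Shelah's Strong Hypothesis: `pp(L) = L⁺` for every singular cardinal `L`;
4. `pp(L) = L⁺` for every singular cardinal `L` of countable cofinality;
5. for every singular cardinal `L`, every strictly increasing `ω`-sequence of regular cardinals
   with supremum `L` has a scale of length `L⁺` modulo finite sets. -/
theorem result : List.TFAE
    [∀ L : Cardinal.{u}, L.IsSingular → Q1At L,
      ∀ L : Cardinal.{u}, L.IsSingular → DirQ1At L,
      ∀ L : Cardinal.{u}, L.IsSingular → pp L = succ L,
      ∀ L : Cardinal.{u}, L.IsSingular → L.ord.cof = ℵ₀ → pp L = succ L,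
      ∀ L : Cardinal.{u}, L.IsSingular → L.ord.cof = ℵ₀ → OmegaScalesAt L] :=
  global_pp_tfae

end Pool.Agent.Results.MP_c014b8_lc.SSHEquivalence
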